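import Pool.Agent.Run7.h472.OH.Iface2
import Pool.Agent.Run7.h472.OH.DET
import Pool.Agent.Run7.h213.OH.TR
import Pool.Agent.N662.FP.Cl

/-! Piece DBL: the doubling inequality for the mean passage time. -/

set_option autoImplicit false
open MeasureTheory ProbabilityTheory Filter Set
open scoped ENNReal Pointwise Topology

namespace Pool.Agent.Run7.h760.OH

open Pool.Agent.N662.FP Pool.Agent.Run7.h472.OH

/-- passage time of a piece of a path -/
theorem D_le_piece {x : Env} (hx : ∀ e, 0 ≤ x e) {m : ℕ} {p : ℕ → ℤ × ℤ} (hp : IsP p m)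
    {i j : ℕ} (hij : i ≤ j) (hjm : j ≤ m) : D x (p i) (p j) ≤ tm x p i j := by
  have hb := (cGE x hx (p i) (p j)).2.1
  refine csInf_le hb ⟨j - i, fun k => p (i + k), by simp, by simp [Nat.add_sub_cancel' hij],
    ?_, ?_⟩
  · intro k hk
    exact hp (i + k) (by omega)
  · unfold tm
    rw [Finset.sum_Ico_eq_sum_range]
    refine Finset.sum_congr rfl fun k _ => ?_
    rw [max_eq_left (hx _)]
    rfl

/-- the deterministic part -/
theorem det_core (hCHD : S_CHD) {x : Env} (hx : ∀ e, 0 ≤ x e) {h : ℤ × ℤ → ℝ} {H0 c0 g : ℝ}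
    (hsub : ∀ v w, h (v + w) ≤ h v + h w) (hneg : ∀ v, h (-v) = h v)
    (hup : ∀ v, h v ≤ H0 * nm v) (hlo : ∀ v, c0 * nm v ≤ h v) (hH0 : 0 < H0) (R0 : ℕ)
    (hR0 : 1 ≤ R0) (v : ℤ × ℤ)
    (hgood : ∀ a b : ℤ × ℤ, nm a ≤ R0 → nm b ≤ R0 → h (b - a) - g ≤ D x a b)
    (hlt : D x 0 (v + v) < h (v + v) + 1)
    (hbig : h (v + v) + 1 + g ≤ c0 * R0) :
    2 * h v ≤ h (v + v) + 1 + 3 * g + 4 * H0 := by
  obtain ⟨s, ⟨m, p, hp0, hpm, hp, hs⟩, hs2⟩ :=
    exists_lt_of_csInf_lt (cGE x hx 0 (v + v)).1 hlt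
  have hp' : IsP p m := hp
  have htot : tm x p 0 m = s := by
    rw [hs]
    unfold tm
    rw [Finset.range_eq_Ico]
    exact Finset.sum_congr rfl fun k _ => max_eq_left (hx _)
  -- the path stays in the box
  have hstay : ∀ i ≤ m, nm (p i) ≤ R0 := by
    intro i him
    by_contra hc
    push Not at hc
    obtain ⟨k0, h1, h2, h3, h4⟩ := first_exit hp' (i := 0) (k := i) (r := R0) (Nat.zero_le _) him
      hR0 (by rw [hp0, sub_zero]; exact hc.le)
    have h5 := h4 k0 h1.le le_rfl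
    rw [hp0, sub_zero] at h3 h5
    have h6 := hgood 0 (p k0) (by rw [nm_zero]; exact Nat.zero_le _) h5
    rw [sub_zero] at h6
    have h7 := D_le_piece hx hp' (Nat.zero_le k0) (h2.trans him)
    rw [hp0] at h7
    have h8 := tm_add x p (Nat.zero_le k0) (h2.trans him)
    have h9 := tm_nonneg x p k0 m
    have h10 := hlo (p k0)
    have h11 : c0 * R0 ≤ c0 * nm (p k0) := by
      have : (nm (p k0) : ℝ) = R0 := by exact_mod_cast le_antisymm h5 h3
      rw [this]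
    linarith
  obtain ⟨a, b, hab, hbm, hw⟩ := hCHD m p hp' v (by rw [hpm, hp0, sub_zero])
  set w : ℤ × ℤ := p b - p a - v with hwdef
  have hnw : h w ≤ 2 * H0 := by
    have := hup w
    have h2 : (nm w : ℝ) ≤ 2 := by exact_mod_cast hw
    nlinarith
  have hnw' : h (-w) ≤ 2 * H0 := by rw [hneg]; exact hnw
  have ham : a ≤ m := hab.trans hbm
  have t1 := D_le_piece hx hp' (Nat.zero_le a) ham
  have t2 := D_le_piece hx hp' hab hbm
  have t3 := D_le_piece hx hp' hbm le_rfl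
  rw [hp0] at t1
  rw [hpm] at t3
  have g1 := hgood 0 (p a) (by rw [nm_zero]; exact Nat.zero_le _) (hstay a ham)
  have g2 := hgood (p a) (p b) (hstay a ham) (hstay b hbm)
  have g3 := hgood (p b) (v + v) (hstay b hbm) (by rw [← hpm]; exact hstay m le_rfl)
  rw [sub_zero] at g1
  have s1 := tm_add x p (Nat.zero_le a) hab
  have s2 := tm_add x p (Nat.zero_le b) hbm
  have e1 : v = (p b - p a) + (-w) := by rw [hwdef]; abel
  have e2 : v = (p a + (v + v - p b)) + w := by rw [hwdef]; abel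
  have f1 : h v ≤ h (p b - p a) + h (-w) := by
    calc h v = h ((p b - p a) + (-w)) := by rw [← e1]
      _ ≤ _ := hsub _ _
  have f2 : h v ≤ h (p a) + h (v + v - p b) + h w := by
    calc h v = h ((p a + (v + v - p b)) + w) := by rw [← e2]
      _ ≤ h (p a + (v + v - p b)) + h w := hsub _ _
      _ ≤ _ := by linarith [hsub (p a) (v + v - p b)]
  linarith

/-- the box of radius `R` -/
noncomputable def Box (R : ℕ) : Finset (ℤ × ℤ) :=
  Finset.Icc (-(R : ℤ)) R ×ˢ Finset.Icc (-(R : ℤ)) R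

theorem mem_Box {R : ℕ} {z : ℤ × ℤ} : z ∈ Box R ↔ nm z ≤ R := by
  unfold Box
  rw [Finset.mem_product, Finset.mem_Icc, Finset.mem_Icc]
  constructor
  · rintro ⟨⟨h1, h2⟩, h3, h4⟩
    exact nm_le (abs_le.2 ⟨h1, h2⟩) (abs_le.2 ⟨h3, h4⟩)
  · intro h
    have h1 := (abs_le_nm1 z).trans (by exact_mod_cast h : (nm z : ℤ) ≤ R)
    have h2 := (abs_le_nm2 z).trans (by exact_mod_cast h : (nm z : ℤ) ≤ R)
    exact ⟨abs_le.1 h1, abs_le.1 h2⟩

theorem card_Box (R : ℕ) : ((Box R).card : ℝ) = (2 * (R : ℝ) + 1) ^ 2 := by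
  unfold Box
  rw [Finset.card_product, Int.card_Icc]
  have : ((R : ℤ) + 1 - -(R : ℤ)).toNat = 2 * R + 1 := by omega
  rw [this]
  push_cast
  ring

variable {Ω : Type} [MeasureSpace Ω] [IsProbabilityMeasure (volume : Measure Ω)]

/-- one term of the union bound -/
theorem term_bound {X : Sym2 (ℤ × ℤ) → Ω → ℝ} (hX : Iid X) {H0 A q θ g : ℝ} {R0 : ℕ}
    (hH0 : 0 < H0) (hup : ∀ v, HH X v ≤ H0 * nm v) (hA : 0 < A) (hθ : 0 < θ) (hq : 0 < q)
    (hLT : ∀ v : ℤ × ℤ, (volume : Measure Ω).real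
      {ω | D (env X ω) 0 v ≤ HH X v - A * (1 + (nm v : ℝ)) ^ θ} ≤ A * (1 + (nm v : ℝ)) ^ (-q))
    (hg0 : 0 < g) (hg : A * (1 + 2 * (R0 : ℝ)) ^ θ ≤ g) {a b : ℤ × ℤ} (ha : nm a ≤ R0)
    (hb : nm b ≤ R0) :
    (volume : Measure Ω).real {ω | D (env X ω) a b < HH X (b - a) - g} ≤ A * (g / H0) ^ (-q) := by
  set z : ℤ × ℤ := b - a with hz
  have hzR : nm z ≤ 2 * R0 := by
    have h : nm z ≤ nm b + nm a := by
      have := nm_add b (-a)
      rwa [nm_neg, ← sub_eq_add_neg] at this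
    omega
  have hpos : 0 ≤ A * (g / H0) ^ (-q) := by positivity
  have e1 : (volume : Measure Ω).real {ω | D (env X ω) a b < HH X z - g} =
      (volume : Measure Ω).real {ω | D (env X ω) 0 z < HH X z - g} := by
    have := Pool.Agent.Run7.h213.OH.t_TR cME cAE Ω X hX a {z} (fun _ => HH X z - g)
    simpa [hz] using this
  rw [e1]
  have hae : ∀ᵐ ω ∂(volume : Measure Ω), 0 ≤ D (env X ω) 0 z := by
    filter_upwards [cAE Ω X hX] with ω hω
    exact (cGE _ hω 0 z).2.2.1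
  by_cases hc : HH X z ≤ g
  · have : (volume : Measure Ω).real {ω | D (env X ω) 0 z < HH X z - g} = 0 := by
      rw [measureReal_def]
      have : (volume : Measure Ω) {ω | D (env X ω) 0 z < HH X z - g} = 0 := by
        refine measure_mono_null ?_ (ae_iff.1 hae)
        intro ω hω
        have hω' : D (env X ω) 0 z < HH X z - g := hω
        show ¬ (0 ≤ D (env X ω) 0 z)
        linarith
      rw [this]; rfl
    rw [this]
    exact hpos
  · push Not at hc
    have h1 : g / H0 ≤ 1 + (nm z : ℝ) := by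
      rw [div_le_iff₀ hH0]
      have := hup z
      nlinarith
    have h2 : (1 + (nm z : ℝ)) ^ θ ≤ (1 + 2 * (R0 : ℝ)) ^ θ := by
      refine Real.rpow_le_rpow (by positivity) ?_ hθ.le
      have : (nm z : ℝ) ≤ 2 * R0 := by exact_mod_cast hzR
      linarith
    have h3 : A * (1 + (nm z : ℝ)) ^ θ ≤ g := by nlinarith
    calc (volume : Measure Ω).real {ω | D (env X ω) 0 z < HH X z - g}
        ≤ (volume : Measure Ω).real
          {ω | D (env X ω) 0 z ≤ HH X z - A * (1 + (nm z : ℝ)) ^ θ} := by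
          refine measureReal_mono ?_ (measure_ne_top _ _)
          intro ω hω
          have hω' : D (env X ω) 0 z < HH X z - g := hω
          show D (env X ω) 0 z ≤ HH X z - A * (1 + (nm z : ℝ)) ^ θ
          linarith
      _ ≤ A * (1 + (nm z : ℝ)) ^ (-q) := hLT z
      _ ≤ A * (g / H0) ^ (-q) := by
          refine mul_le_mul_of_nonneg_left ?_ hA.le
          exact Real.rpow_le_rpow_of_nonpos (by positivity) h1 (by linarith)

/-- the good event meets the event of a small passage time -/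
theorem exists_good {X : Sym2 (ℤ × ℤ) → Ω → ℝ} (hX : Iid X) {H0 A q θ g : ℝ} {R0 : ℕ}
    (hH0 : 0 < H0) (hup : ∀ v, HH X v ≤ H0 * nm v) (h0 : ∀ v, 0 ≤ HH X v) (hA : 0 < A)
    (hθ : 0 < θ) (hq : 0 < q)
    (hLT : ∀ v : ℤ × ℤ, (volume : Measure Ω).real
      {ω | D (env X ω) 0 v ≤ HH X v - A * (1 + (nm v : ℝ)) ^ θ} ≤ A * (1 + (nm v : ℝ)) ^ (-q))
    (hg0 : 0 < g) (hg : A * (1 + 2 * (R0 : ℝ)) ^ θ ≤ g) (u : ℤ × ℤ)
    (hsum : (2 * (R0 : ℝ) + 1) ^ 4 * (A * (g / H0) ^ (-q)) * (HH X u + 1) < 1) :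
    ∃ ω : Ω, (∀ e, 0 ≤ env X ω e) ∧ D (env X ω) 0 u < HH X u + 1 ∧
      ∀ a b : ℤ × ℤ, nm a ≤ R0 → nm b ≤ R0 → HH X (b - a) - g ≤ D (env X ω) a b := by
  classical
  by_contra hno
  push Not at hno
  set S1 : Set Ω := {ω | HH X u + 1 ≤ D (env X ω) 0 u} with hS1
  set S2 : Set Ω := ⋃ P ∈ Box R0 ×ˢ Box R0,
    {ω | D (env X ω) P.1 P.2 < HH X (P.2 - P.1) - g} with hS2
  set S3 : Set Ω := {ω | ¬ ∀ e, 0 ≤ env X ω e} with hS3
  have hH := h0 u
  have hcov : (univ : Set Ω) ⊆ S1 ∪ (S2 ∪ S3) := by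
    intro ω _
    by_cases h3 : ∀ e, 0 ≤ env X ω e
    · by_cases h1 : D (env X ω) 0 u < HH X u + 1
      · obtain ⟨a, b, ha, hb, hab⟩ := hno ω h3 h1
        right; left
        rw [hS2]
        simp only [mem_iUnion]
        refine ⟨(a, b), ?_, hab⟩
        exact Finset.mem_product.2 ⟨mem_Box.2 ha, mem_Box.2 hb⟩
      · left
        exact not_lt.1 h1
    · right; right
      exact h3
  have m3 : (volume : Measure Ω).real S3 = 0 := by
    rw [measureReal_def]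
    have : (volume : Measure Ω) S3 = 0 := ae_iff.1 (cAE Ω X hX)
    rw [this]; rfl
  have m2 : (volume : Measure Ω).real S2 ≤ (2 * (R0 : ℝ) + 1) ^ 4 * (A * (g / H0) ^ (-q)) := by
    refine (measureReal_biUnion_finset_le _ _).trans ?_
    have : ∀ P ∈ Box R0 ×ˢ Box R0, (volume : Measure Ω).real
        {ω | D (env X ω) P.1 P.2 < HH X (P.2 - P.1) - g} ≤ A * (g / H0) ^ (-q) := by
      intro P hP
      obtain ⟨h1, h2⟩ := Finset.mem_product.1 hP
      exact term_bound hX hH0 hup hA hθ hq hLT hg0 hg (mem_Box.1 h1) (mem_Box.1 h2)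
    refine (Finset.sum_le_card_nsmul _ _ _ this).trans ?_
    rw [nsmul_eq_mul, Finset.card_product]
    push_cast
    rw [card_Box]
    apply le_of_eq
    ring
  have hnn : 0 ≤ᵐ[(volume : Measure Ω)] fun ω => D (env X ω) 0 u := by
    filter_upwards [cAE Ω X hX] with ω hω
    exact (cGE _ hω 0 u).2.2.1
  have m1 : (HH X u + 1) * (volume : Measure Ω).real S1 ≤ HH X u :=
    mul_meas_ge_le_integral_of_nonneg hnn (cINT Ω X hX 0 u) (HH X u + 1)
  have mt : (1 : ℝ) ≤ (volume : Measure Ω).real S1 + ((volume : Measure Ω).real S2 +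
      (volume : Measure Ω).real S3) := by
    calc (1 : ℝ) = (volume : Measure Ω).real univ := by simp
      _ ≤ (volume : Measure Ω).real (S1 ∪ (S2 ∪ S3)) :=
          measureReal_mono hcov (measure_ne_top _ _)
      _ ≤ (volume : Measure Ω).real S1 + (volume : Measure Ω).real (S2 ∪ S3) :=
          measureReal_union_le _ _
      _ ≤ _ := by linarith [measureReal_union_le (μ := (volume : Measure Ω)) S2 S3]
  rw [m3, add_zero] at mt
  have k1 : (HH X u + 1) * (volume : Measure Ω).real S2 < 1 := by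
    refine lt_of_le_of_lt (mul_le_mul_of_nonneg_left m2 (by linarith)) ?_
    calc (HH X u + 1) * ((2 * (R0 : ℝ) + 1) ^ 4 * (A * (g / H0) ^ (-q)))
        = (2 * (R0 : ℝ) + 1) ^ 4 * (A * (g / H0) ^ (-q)) * (HH X u + 1) := by ring
      _ < 1 := hsum
  have k2 : (HH X u + 1) * 1 ≤ (HH X u + 1) * ((volume : Measure Ω).real S1 +
      (volume : Measure Ω).real S2) := mul_le_mul_of_nonneg_left mt (by linarith)
  rw [mul_add] at k2
  linarith

theorem t_DBL (hCHD : S_CHD) (hHB : S_HB) : S_DBL := by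
  intro Ω _ _ X hX c0 hc0 hlo κ q hκ0 hκ1 hq hLT
  obtain ⟨A, hA, hLT⟩ := hLT
  obtain ⟨hsub, hneg, hnn, H0, hH0, hup⟩ := hHB Ω X hX
  set θ : ℝ := 1 - κ with hθdef
  have hθ : 0 < θ := by rw [hθdef]; linarith
  have hq0 : 0 < q := lt_trans (by positivity) hq
  have hθq : 5 < θ * q := by
    rw [div_lt_iff₀ hθ] at hq
    linarith
  obtain ⟨C1, hC1⟩ := exists_nat_ge (max 1 ((2 * H0 + 3) / c0))
  have hC1a : (1 : ℝ) ≤ C1 := (le_max_left _ _).trans hC1
  have hC1b : 2 * H0 + 3 ≤ c0 * C1 := by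
    have := (le_max_right _ _).trans hC1
    rw [div_le_iff₀ hc0] at this
    linarith
  set A' : ℝ := A * (1 + 2 * (C1 : ℝ)) ^ θ with hA'
  have hA'0 : 0 < A' := by positivity
  set K : ℝ := (1 + 2 * (C1 : ℝ)) ^ 4 * (A * (A' / H0) ^ (-q)) with hK
  have hK0 : 0 < K := by positivity
  -- asymptotics
  have hT : Tendsto (fun n : ℕ => 1 + (n : ℝ)) atTop atTop :=
    tendsto_atTop_add_const_left _ _ tendsto_natCast_atTop_atTop
  have E1 : ∀ᶠ n : ℕ in atTop, A' * (1 + (n : ℝ)) ^ θ ≤ n := by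
    have h1 : Tendsto (fun n : ℕ => (1 + (n : ℝ)) ^ (-κ)) atTop (𝓝 0) :=
      (tendsto_rpow_neg_atTop hκ0).comp hT
    have h2 : ∀ᶠ n : ℕ in atTop, (1 + (n : ℝ)) ^ (-κ) ≤ 1 / (2 * A') :=
      (h1.eventually (ge_mem_nhds (by positivity)))
    filter_upwards [h2, eventually_ge_atTop 1] with n h3 h4
    have h5 : (1 : ℝ) ≤ n := by exact_mod_cast h4
    have h6 : (1 + (n : ℝ)) ^ θ = (1 + (n : ℝ)) ^ (-κ) * (1 + (n : ℝ)) := by
      rw [hθdef]
      have : (1 : ℝ) - κ = -κ + 1 := by ring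
      rw [this, Real.rpow_add (by positivity), Real.rpow_one]
    rw [h6]
    have h7 : A' * (1 + (n : ℝ)) ^ (-κ) ≤ 1 / 2 := by
      calc A' * (1 + (n : ℝ)) ^ (-κ) ≤ A' * (1 / (2 * A')) :=
            mul_le_mul_of_nonneg_left h3 hA'0.le
        _ = 1 / 2 := by field_simp
    calc A' * ((1 + (n : ℝ)) ^ (-κ) * (1 + (n : ℝ)))
        = (A' * (1 + (n : ℝ)) ^ (-κ)) * (1 + (n : ℝ)) := by ring
      _ ≤ 1 / 2 * (1 + (n : ℝ)) := mul_le_mul_of_nonneg_right h7 (by positivity)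
      _ ≤ n := by linarith
  have E2 : ∀ᶠ n : ℕ in atTop, K * (1 + (n : ℝ)) ^ (4 - θ * q) * ((2 * H0 + 1) * (1 + n)) < 1 := by
    have h1 : Tendsto (fun n : ℕ => (1 + (n : ℝ)) ^ (-(θ * q - 5))) atTop (𝓝 0) :=
      (tendsto_rpow_neg_atTop (by linarith)).comp hT
    have h2 : ∀ᶠ n : ℕ in atTop, (1 + (n : ℝ)) ^ (-(θ * q - 5)) < 1 / (K * (2 * H0 + 1)) :=
      h1.eventually (gt_mem_nhds (by positivity))
    filter_upwards [h2] with n h3
    have h6 : (1 + (n : ℝ)) ^ (-(θ * q - 5)) = (1 + (n : ℝ)) ^ (4 - θ * q) * (1 + (n : ℝ)) := by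
      have : -(θ * q - 5) = (4 - θ * q) + 1 := by ring
      rw [this, Real.rpow_add (by positivity), Real.rpow_one]
    calc K * (1 + (n : ℝ)) ^ (4 - θ * q) * ((2 * H0 + 1) * (1 + n))
        = (K * (2 * H0 + 1)) * ((1 + (n : ℝ)) ^ (4 - θ * q) * (1 + (n : ℝ))) := by ring
      _ = (K * (2 * H0 + 1)) * (1 + (n : ℝ)) ^ (-(θ * q - 5)) := by rw [h6]
      _ < (K * (2 * H0 + 1)) * (1 / (K * (2 * H0 + 1))) :=
          mul_lt_mul_of_pos_left h3 (by positivity)
      _ = 1 := by field_simp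
  obtain ⟨n0, hn0⟩ := eventually_atTop.1 (E1.and (E2.and (eventually_ge_atTop 1)))
  refine ⟨3 * A' + 4 * H0 + 1 + 2 * H0 * n0, by positivity, ?_⟩
  intro v
  set n : ℕ := nm v with hn
  have hone : 1 ≤ (1 + (n : ℝ)) ^ θ := Real.one_le_rpow (by linarith [Nat.cast_nonneg (α := ℝ) n])
    hθ.le
  rcases lt_or_ge n n0 with hlt | hge
  · -- small points
    have h1 : HH X v ≤ H0 * n0 := by
      have := hup v
      have h2 : (nm v : ℝ) ≤ n0 := by exact_mod_cast (hn ▸ hlt.le : nm v ≤ n0)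
      nlinarith
    have h3 := hnn (v + v)
    have h4 : 2 * H0 * n0 ≤ (3 * A' + 4 * H0 + 1 + 2 * H0 * n0) * (1 + (n : ℝ)) ^ θ := by
      calc 2 * H0 * n0 ≤ (3 * A' + 4 * H0 + 1 + 2 * H0 * n0) * 1 := by nlinarith
        _ ≤ _ := mul_le_mul_of_nonneg_left hone (by positivity)
    linarith
  · obtain ⟨a1, a2, a3⟩ := hn0 n hge
    have hn1 : (1 : ℝ) ≤ n := by exact_mod_cast a3
    set g : ℝ := A' * (1 + (n : ℝ)) ^ θ with hg
    have hg0 : 0 < g := by positivity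
    set R0 : ℕ := C1 * n with hR0
    have hR0r : (R0 : ℝ) = C1 * n := by rw [hR0]; push_cast; ring
    have hbase : 1 + 2 * (R0 : ℝ) ≤ (1 + 2 * (C1 : ℝ)) * (1 + n) := by
      rw [hR0r]; nlinarith
    have hgA : A * (1 + 2 * (R0 : ℝ)) ^ θ ≤ g := by
      calc A * (1 + 2 * (R0 : ℝ)) ^ θ ≤ A * ((1 + 2 * (C1 : ℝ)) * (1 + n)) ^ θ := by
            refine mul_le_mul_of_nonneg_left ?_ hA.le
            exact Real.rpow_le_rpow (by positivity) hbase hθ.le
        _ = g := by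
            rw [Real.mul_rpow (by positivity) (by positivity), hg, hA']
            ring
    have hu2 : HH X (v + v) ≤ 2 * H0 * n := by
      have h1 := hup (v + v)
      have h2 : (nm (v + v) : ℝ) ≤ 2 * n := by
        have := nm_add v v
        have h3 : nm (v + v) ≤ 2 * n := by omega
        exact_mod_cast h3
      nlinarith
    have hsum : (2 * (R0 : ℝ) + 1) ^ 4 * (A * (g / H0) ^ (-q)) * (HH X (v + v) + 1) < 1 := by
      refine lt_of_le_of_lt ?_ a2
      have b1 : (2 * (R0 : ℝ) + 1) ^ 4 ≤ (1 + 2 * (C1 : ℝ)) ^ 4 * (1 + (n : ℝ)) ^ 4 := by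
        rw [← mul_pow]
        refine pow_le_pow_left₀ (by positivity) ?_ 4
        linarith
      have b2 : (g / H0) ^ (-q) = (A' / H0) ^ (-q) * (1 + (n : ℝ)) ^ (-(θ * q)) := by
        have : g / H0 = (A' / H0) * (1 + (n : ℝ)) ^ θ := by rw [hg]; ring
        rw [this, Real.mul_rpow (by positivity) (by positivity), ← Real.rpow_mul (by positivity)]
        congr 2
        ring
      have b3 : (1 + (n : ℝ)) ^ (4 - θ * q) = (1 + (n : ℝ)) ^ 4 * (1 + (n : ℝ)) ^ (-(θ * q)) := by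
        have : 4 - θ * q = ((4 : ℕ) : ℝ) + (-(θ * q)) := by push_cast; ring
        rw [this, Real.rpow_add (by positivity), Real.rpow_natCast]
      have b4 : HH X (v + v) + 1 ≤ (2 * H0 + 1) * (1 + n) := by nlinarith
      have b5 : (2 * (R0 : ℝ) + 1) ^ 4 * (A * (g / H0) ^ (-q)) ≤
          K * (1 + (n : ℝ)) ^ (4 - θ * q) := by
        calc (2 * (R0 : ℝ) + 1) ^ 4 * (A * (g / H0) ^ (-q))
            ≤ ((1 + 2 * (C1 : ℝ)) ^ 4 * (1 + (n : ℝ)) ^ 4) * (A * (g / H0) ^ (-q)) :=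
              mul_le_mul_of_nonneg_right b1 (by positivity)
          _ = K * (1 + (n : ℝ)) ^ (4 - θ * q) := by
              rw [b2, b3, hK]; ring
      have b6 : 0 ≤ HH X (v + v) + 1 := by linarith [hnn (v + v)]
      calc (2 * (R0 : ℝ) + 1) ^ 4 * (A * (g / H0) ^ (-q)) * (HH X (v + v) + 1)
          ≤ K * (1 + (n : ℝ)) ^ (4 - θ * q) * (HH X (v + v) + 1) :=
            mul_le_mul_of_nonneg_right b5 b6
        _ ≤ K * (1 + (n : ℝ)) ^ (4 - θ * q) * ((2 * H0 + 1) * (1 + n)) :=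
            mul_le_mul_of_nonneg_left b4 (by positivity)
    obtain ⟨ω, w1, w2, w3⟩ := exists_good hX hH0 hup hnn hA hθ hq0 hLT hg0 hgA (v + v) hsum
    have hbig : HH X (v + v) + 1 + g ≤ c0 * R0 := by
      rw [hR0r]
      nlinarith
    have hR1 : 1 ≤ R0 := by
      have : (1 : ℝ) ≤ (R0 : ℝ) := by rw [hR0r]; nlinarith
      exact_mod_cast this
    have key := det_core hCHD w1 hsub hneg hup hlo hH0 R0 hR1 v w3 w2 hbig
    have h4 : 4 * H0 + 1 + 2 * H0 * n0 ≤ (4 * H0 + 1 + 2 * H0 * n0) * (1 + (n : ℝ)) ^ θ := by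
      calc 4 * H0 + 1 + 2 * H0 * n0 = (4 * H0 + 1 + 2 * H0 * n0) * 1 := by ring
        _ ≤ _ := mul_le_mul_of_nonneg_left hone (by positivity)
    have h5 : (0 : ℝ) ≤ 2 * H0 * n0 := by positivity
    calc 2 * HH X v ≤ HH X (v + v) + 1 + 3 * g + 4 * H0 := key
      _ ≤ HH X (v + v) + (3 * A' + 4 * H0 + 1 + 2 * H0 * n0) * (1 + (n : ℝ)) ^ θ := by
          rw [hg]
          nlinarith

end Pool.Agent.Run7.h760.OH
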